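import Pool.Agent.V11167.BeerB

/-!
# Sets of large Beer index contain the boundary of a large triangle
-/

namespace Pool.Agent.Results.MP_40f41c_co.BeerTriangle

open MeasureTheory Set Pool.Agent.V11167.BeerA Pool.Agent.V11167.BeerB

/-- The Beer index of a planar set: the measure of the set of pairs `(x, y)` of points of `S`
with `[x, y] ⊆ S`, divided by the square of the area of `S`. -/
noncomputable def beer (S : Set (ℝ × ℝ)) : ℝ :=
  (volume (Seg S)).toReal / (volume S).toReal ^ 2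

/-- Polar coordinates around an arbitrary point. -/
lemma polar_int {g : ℝ × ℝ → ENNReal} (hg : Measurable g) (z : ℝ × ℝ) :
    ∫⁻ x, g x = ∫⁻ θ in Ioo (-Real.pi) Real.pi, ∫⁻ r in Ioi (0 : ℝ),
      ENNReal.ofReal r * g (ray z θ r) := by
  rw [← lintegral_add_left_eq_self g z, ← lintegral_comp_polarCoord_symm, polarCoord_target,
    Measure.volume_eq_prod, ← Measure.prod_restrict, lintegral_prod_symm]
  · refine lintegral_congr fun θ => lintegral_congr fun r => ?_
    rw [smul_eq_mul]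
    congr 2
  · refine Measurable.aemeasurable ?_
    have hc : Measurable fun p : ℝ × ℝ => z + (polarCoord.symm p : ℝ × ℝ) := by
      simp only [polarCoord_symm_apply]
      fun_prop
    exact (ENNReal.measurable_ofReal.comp measurable_fst).mul (hg.comp hc)

lemma slice_bound {S : Set (ℝ × ℝ)} {D A : ℝ} (hD : 0 < D) (hA : 0 < A)
    (hSA : volume S ≤ ENNReal.ofReal A) (hno : NoTri S D)
    {F G : Set ((ℝ × ℝ) × (ℝ × ℝ))} (hF : MeasurableSet F) (hG : MeasurableSet G)
    (hFS : F ⊆ Seg S) (hSG : Seg S ⊆ G) (z1 : ℝ × ℝ) :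
    ∫⁻ x, volume {z2 | (x, (z1, z2)) ∈ Tr F} ≤
      ENNReal.ofReal (8 * Real.sqrt (D * A)) * volume {x | (x, z1) ∈ G} := by
  have m1 : Measurable fun x => volume {z2 | (x, (z1, z2)) ∈ Tr F} := by
    have hm : MeasurableSet {p : (ℝ × ℝ) × (ℝ × ℝ) | (p.1, (z1, p.2)) ∈ Tr F} :=
      (measurableSet_Tr hF).preimage (by fun_prop)
    exact measurable_measure_prodMk_left hm
  have m2 : MeasurableSet {x | (x, z1) ∈ G} := hG.preimage (by fun_prop)
  have e2 : volume {x | (x, z1) ∈ G} = ∫⁻ x, G.indicator 1 (x, z1) := by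
    rw [← lintegral_indicator_one m2]
    refine lintegral_congr fun x => ?_
    by_cases h : (x, z1) ∈ G
    · rw [indicator_of_mem h, indicator_of_mem (show x ∈ {x | (x, z1) ∈ G} from h)]
      rfl
    · rw [indicator_of_notMem h, indicator_of_notMem (show x ∉ {x | (x, z1) ∈ G} from h)]
  have m3 : Measurable fun x : ℝ × ℝ => G.indicator (1 : (ℝ × ℝ) × (ℝ × ℝ) → ENNReal) (x, z1) :=
    (measurable_one.indicator hG).comp measurable_prodMk_right
  rw [e2, polar_int m1 z1, polar_int m3 z1, ← lintegral_const_mul' _ _ ENNReal.ofReal_ne_top]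
  exact lintegral_mono fun θ => ray_bound hD hA hSA hno hF hFS hSG z1 θ

lemma vol_Tr {S : Set (ℝ × ℝ)} {D A : ℝ} (hD : 0 < D) (hA : 0 < A)
    (hSA : volume S ≤ ENNReal.ofReal A) (hno : NoTri S D)
    {F G : Set ((ℝ × ℝ) × (ℝ × ℝ))} (hF : MeasurableSet F) (hG : MeasurableSet G)
    (hFS : F ⊆ Seg S) (hSG : Seg S ⊆ G) :
    volume (Tr F) ≤ ENNReal.ofReal (8 * Real.sqrt (D * A)) * volume G := by
  have hT := measurableSet_Tr hF
  have e1 : volume (Tr F) = ∫⁻ x, ∫⁻ z1, volume {z2 | (x, (z1, z2)) ∈ Tr F} := by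
    rw [Measure.volume_eq_prod, Measure.prod_apply hT]
    refine lintegral_congr fun x => ?_
    rw [Measure.volume_eq_prod (ℝ × ℝ) (ℝ × ℝ), Measure.prod_apply (hT.preimage (by fun_prop))]
    rfl
  have hm : Measurable fun p : (ℝ × ℝ) × (ℝ × ℝ) => volume {z2 | (p.1, (p.2, z2)) ∈ Tr F} := by
    have hm : MeasurableSet {p : ((ℝ × ℝ) × (ℝ × ℝ)) × (ℝ × ℝ) | (p.1.1, (p.1.2, p.2)) ∈ Tr F} :=
      hT.preimage (by fun_prop)
    exact measurable_measure_prodMk_left hm
  rw [e1, lintegral_lintegral_swap hm.aemeasurable]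
  calc ∫⁻ z1, ∫⁻ x, volume {z2 | (x, (z1, z2)) ∈ Tr F}
      ≤ ∫⁻ z1, ENNReal.ofReal (8 * Real.sqrt (D * A)) * volume {x | (x, z1) ∈ G} :=
        lintegral_mono fun z1 => slice_bound hD hA hSA hno hF hG hFS hSG z1
    _ = ENNReal.ofReal (8 * Real.sqrt (D * A)) * ∫⁻ z1, volume {x | (x, z1) ∈ G} :=
        lintegral_const_mul' _ _ ENNReal.ofReal_ne_top
    _ = _ := by
        rw [Measure.volume_eq_prod (ℝ × ℝ) (ℝ × ℝ), Measure.prod_apply_symm hG]
        rfl

/-- All triples. -/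
def Full (F : Set ((ℝ × ℝ) × (ℝ × ℝ))) : Set ((ℝ × ℝ) × ((ℝ × ℝ) × (ℝ × ℝ))) :=
  {t | (t.1, t.2.1) ∈ F ∧ (t.1, t.2.2) ∈ F}

lemma vol_Full {F : Set ((ℝ × ℝ) × (ℝ × ℝ))} (hF : MeasurableSet F) :
    volume (Full F) ≤ 2 * volume (Tr F) := by
  have hT := measurableSet_Tr hF
  set sw : (ℝ × ℝ) × ((ℝ × ℝ) × (ℝ × ℝ)) → (ℝ × ℝ) × ((ℝ × ℝ) × (ℝ × ℝ)) :=
    Prod.map id Prod.swap with hsw
  have hmp : MeasurePreserving sw volume volume := by
    have h1 : MeasurePreserving (id : ℝ × ℝ → ℝ × ℝ) volume volume := MeasurePreserving.id _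
    have h2 : MeasurePreserving (Prod.swap : (ℝ × ℝ) × (ℝ × ℝ) → (ℝ × ℝ) × (ℝ × ℝ))
        volume volume := Measure.measurePreserving_swap
    exact h1.prod h2
  have hsub : Full F ⊆ Tr F ∪ sw ⁻¹' (Tr F) := by
    rintro ⟨x, z1, z2⟩ ⟨h1, h2⟩
    rcases le_total (q (z2 - x)) (q (z1 - x)) with h | h
    · exact Or.inl ⟨h1, h2, h⟩
    · exact Or.inr ⟨h2, h1, h⟩
  calc volume (Full F) ≤ volume (Tr F ∪ sw ⁻¹' (Tr F)) := measure_mono hsub
    _ ≤ volume (Tr F) + volume (sw ⁻¹' (Tr F)) := measure_union_le _ _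
    _ = 2 * volume (Tr F) := by
        rw [hmp.measure_preimage hT.nullMeasurableSet, two_mul]

lemma lower_Full {S : Set (ℝ × ℝ)} (hfin : volume S ≠ ⊤)
    {F : Set ((ℝ × ℝ) × (ℝ × ℝ))} (hF : MeasurableSet F) (hFS : F ⊆ Seg S) {c : ℝ} (hc : 0 ≤ c) :
    ENNReal.ofReal (2 * c) * volume F ≤ volume (Full F) + ENNReal.ofReal (c ^ 2) * volume S := by
  have hFull : MeasurableSet (Full F) :=
    (hF.preimage (by fun_prop : Measurable fun t : (ℝ × ℝ) × ((ℝ × ℝ) × (ℝ × ℝ)) =>
      (t.1, t.2.1))).inter (hF.preimage (by fun_prop))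
  have e1 : volume (Full F) = ∫⁻ x, volume (Prod.mk x ⁻¹' F) ^ 2 := by
    rw [Measure.volume_eq_prod, Measure.prod_apply hFull]
    refine lintegral_congr fun x => ?_
    have : Prod.mk x ⁻¹' (Full F) = (Prod.mk x ⁻¹' F) ×ˢ (Prod.mk x ⁻¹' F) := by
      ext ⟨a, b⟩
      rfl
    rw [this, Measure.volume_eq_prod (ℝ × ℝ) (ℝ × ℝ), Measure.prod_prod, sq]
  have e2 : volume F = ∫⁻ x, volume (Prod.mk x ⁻¹' F) := by
    rw [Measure.volume_eq_prod (ℝ × ℝ) (ℝ × ℝ), Measure.prod_apply hF]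
  have e3 : volume S = ∫⁻ x, (toMeasurable volume S).indicator 1 x := by
    rw [lintegral_indicator_one (measurableSet_toMeasurable _ _), measure_toMeasurable]
  rw [e1, e2, e3, ← lintegral_const_mul' _ _ ENNReal.ofReal_ne_top,
    ← lintegral_const_mul' _ _ ENNReal.ofReal_ne_top,
    ← lintegral_add_left ((measurable_measure_prodMk_left hF).pow_const 2)]
  refine lintegral_mono fun x => ?_
  simp only
  by_cases hx : x ∈ toMeasurable volume S
  · rw [indicator_of_mem hx]
    have hle : volume (Prod.mk x ⁻¹' F) ≤ volume S := by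
      refine measure_mono ?_
      intro y hy
      exact (hFS hy).2.1
    have hne : volume (Prod.mk x ⁻¹' F) ≠ ⊤ := ne_top_of_le_ne_top hfin hle
    rw [← ENNReal.ofReal_toReal hne]
    set v := (volume (Prod.mk x ⁻¹' F)).toReal
    have hv : 0 ≤ v := ENNReal.toReal_nonneg
    rw [← ENNReal.ofReal_mul (by linarith), ← ENNReal.ofReal_pow hv, Pi.one_apply, mul_one,
      ← ENNReal.ofReal_add (by positivity) (by positivity)]
    apply ENNReal.ofReal_le_ofReal
    nlinarith [sq_nonneg (v - c)]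
  · have : Prod.mk x ⁻¹' F = ∅ := by
      ext y
      simp only [mem_preimage, mem_empty_iff_false, iff_false]
      intro hy
      exact hx (subset_toMeasurable _ _ (hFS hy).1)
    rw [this]
    simp

/-- If `S` is a planar set whose Beer index is defined and at least `ε > 0`, then `S` contains the
boundary of a nondegenerate triangle whose area is at least `(ε ^ 2 / 257)` times the area of
`S`. -/
theorem result (ε : ℝ) (hε : 0 < ε) (S : Set (ℝ × ℝ)) (_hS : NullMeasurableSet S)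
    (h0 : volume S ≠ 0) (h1 : volume S ≠ ⊤) (hSeg : NullMeasurableSet (Seg S))
    (hb : ε ≤ beer S) :
    ∃ a b c : ℝ × ℝ, ¬ Collinear ℝ {a, b, c} ∧
      segment ℝ a b ∪ segment ℝ b c ∪ segment ℝ c a ⊆ S ∧
      ε ^ 2 / 257 * (volume S).toReal ≤ (volume (convexHull ℝ {a, b, c})).toReal := by
  by_contra hcon
  push Not at hcon
  set A := (volume S).toReal with hAdef
  have hA : 0 < A := ENNReal.toReal_pos h0 h1
  have hSA : volume S = ENNReal.ofReal A := (ENNReal.ofReal_toReal h1).symm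
  set D := ε ^ 2 / 257 * A with hDdef
  have hD : 0 < D := by positivity
  have hno : NoTri S D := by
    intro a b c hc s1 s2 s3
    have h2 := hcon a b c hc (union_subset (union_subset s1 s2) s3)
    have hfin : volume (convexHull ℝ {a, b, c}) ≠ ⊤ := by
      have : IsCompact (convexHull ℝ ({a, b, c} : Set (ℝ × ℝ))) :=
        Set.Finite.isCompact_convexHull ℝ (Set.toFinite _)
      exact this.measure_ne_top
    rw [← ENNReal.ofReal_toReal hfin]
    exact (ENNReal.ofReal_lt_ofReal_iff hD).2 h2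
  obtain ⟨F, hFS, hF, hFae⟩ := hSeg.exists_measurable_subset_ae_eq
  set G := toMeasurable volume (Seg S) with hG
  have hGm : MeasurableSet G := measurableSet_toMeasurable _ _
  have hvF : volume F = volume (Seg S) := measure_congr hFae
  have hvG : volume G = volume (Seg S) := measure_toMeasurable _
  have hSegfin : volume (Seg S) ≠ ⊤ := by
    have hsub : Seg S ⊆ S ×ˢ S := fun p hp => ⟨hp.1, hp.2.1⟩
    refine ne_top_of_le_ne_top ?_ (measure_mono hsub)
    rw [Measure.volume_eq_prod, Measure.prod_prod]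
    exact ENNReal.mul_ne_top h1 h1
  set B := (volume (Seg S)).toReal with hBdef
  have hBv : volume (Seg S) = ENNReal.ofReal B := (ENNReal.ofReal_toReal hSegfin).symm
  have hB : ε * A ^ 2 ≤ B := by
    have : ε ≤ B / A ^ 2 := hb
    rwa [le_div_iff₀ (by positivity)] at this
  have hBpos : 0 < B := lt_of_lt_of_le (by positivity) hB
  have i1 := vol_Tr hD hA hSA.le hno hF hGm hFS (subset_toMeasurable _ _)
  have i2 := vol_Full hF
  have hc : 0 ≤ B / A := by positivity
  have i3 := lower_Full h1 hF hFS hc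
  have i4 : ENNReal.ofReal (2 * (B / A)) * ENNReal.ofReal B ≤
      2 * (ENNReal.ofReal (8 * Real.sqrt (D * A)) * ENNReal.ofReal B) +
        ENNReal.ofReal ((B / A) ^ 2) * ENNReal.ofReal A := by
    rw [hvF, hBv, hSA] at i3
    rw [hvG, hBv] at i1
    refine i3.trans ?_
    gcongr
    exact i2.trans (by gcongr)
  have hsq : 0 ≤ Real.sqrt (D * A) := Real.sqrt_nonneg _
  have e2 : (2 : ENNReal) = ENNReal.ofReal 2 := by simp
  rw [e2, ← ENNReal.ofReal_mul (by positivity), ← ENNReal.ofReal_mul (by positivity),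
    ← ENNReal.ofReal_mul (by positivity), ← ENNReal.ofReal_mul (by positivity),
    ← ENNReal.ofReal_add (by positivity) (by positivity),
    ENNReal.ofReal_le_ofReal_iff (by positivity)] at i4
  have i5 : B ≤ 16 * A * Real.sqrt (D * A) := by
    have e3 : 2 * (B / A) * B = 2 * (B ^ 2 / A) := by ring
    have e4 : (B / A) ^ 2 * A = B ^ 2 / A := by field_simp
    rw [e3, e4] at i4
    have i6 : B ^ 2 / A ≤ 16 * Real.sqrt (D * A) * B := by linarith
    rw [div_le_iff₀ hA] at i6
    have i7 : B * B ≤ (16 * A * Real.sqrt (D * A)) * B := by nlinarith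
    exact le_of_mul_le_mul_right i7 hBpos
  have e5 : D * A = (ε * A) ^ 2 / 257 := by rw [hDdef]; ring
  have i8 : Real.sqrt (D * A) < ε * A / 16 := by
    rw [e5, Real.sqrt_lt' (by positivity)]
    have : 0 < (ε * A) ^ 2 := by positivity
    nlinarith
  have : 16 * A * Real.sqrt (D * A) < ε * A ^ 2 := by nlinarith
  linarith

end Pool.Agent.Results.MP_40f41c_co.BeerTriangle
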